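import Pool.Agent.Q88.MD.Fin
import Pool.Agent.Q265.MD_SPOS
import Pool.Agent.Q151.MD_QAP
import Pool.Agent.Q184.MD_KER
import Pool.Agent.Q299.MD_DBL
import Pool.Agent.Q299.MD_ENG
import Pool.Agent.Q94.MD_CPT
import Pool.Agent.Q299.MD_NPL
import Pool.Agent.Q223.MD.SUP
import Pool.Agent.Q181.MD_NPZ
import Pool.Agent.Q94.MD_INV
import Pool.Agent.Q137.MD.STR
import Pool.Agent.Q137.MD.HTW
import Pool.Agent.Q252.MD_TAY
import Pool.Agent.Q252.MD_MOM
import Pool.Agent.Q252.MD_BCA
import Pool.Agent.Q151.MD_TLT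
import Pool.Agent.Q192.MD_NPR
import Pool.Agent.Q177.MD_POL
import Pool.Agent.Q295.MD_CNV
import Pool.Agent.Q295.MD_LGM
import Pool.Agent.Q223.MD.MM
import Pool.Agent.Q121.MD_PZG
import Pool.Agent.Q186.MD.BAD
import Pool.Agent.Q186.MD.THB
import Pool.Agent.Q121.MD_ENC

/-!
# Polar sets and the Möbius de Rham measures

For trapping parameters `(lam, gam, q)` the measure of de Rham's function for the linear fractional maps
`F0`, `F1` vanishes on all `d₀`-polar Borel sets, except exactly if `1 < lam`,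
`q (lam - 1) = lam (gam - 1)` and `(lam - 1) / lam ^ 2 ≤ (gam - 1) / gam ^ 2`.

In the exceptional case `r₀ = r₁` is the fixed point of both state maps, the digits are independent
with probability `1 / lam` in the limit, up to a logarithmic correction, and the entropy of the fixed
point is the minimum. In all other cases the energy of the measure restricted to a large set is finite.
-/

set_option autoImplicit false

open MeasureTheory Set Filter Topology
open scoped ENNReal NNReal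

noncomputable section

namespace Pool.Agent.Results.MP_19f6dc_an.PolarSets

/-- The first map. -/
def F0 (lam gam x : ℝ) : ℝ := x / ((gam - lam) * x + lam)

/-- The second map. -/
def F1 (gam q x : ℝ) : ℝ := ((q - 1) * x + 1) / ((q - gam) * x + gam)

/-- `f` is the strictly increasing left-continuous solution of de Rham's equation on `[0, 1]`. -/
def IsDeRham (lam gam q : ℝ) (f : ℝ → ℝ) : Prop :=
  StrictMonoOn f (Icc 0 1) ∧ (∀ x ∈ Ioc (0 : ℝ) 1, ContinuousWithinAt f (Iio x) x) ∧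
    f 0 = 0 ∧ f 1 = 1 ∧
    ∀ x ∈ Icc (0 : ℝ) 1, f (x / 2) = F0 lam gam (f x) ∧ f ((x + 1) / 2) = F1 gam q (f x)

/-- `μ` is the Borel probability measure with `f x = μ [0, x)` for `x ∈ [0, 1]`. -/
def IsMeasureOf (f : ℝ → ℝ) (μ : Measure ℝ) : Prop :=
  IsProbabilityMeasure μ ∧ ∀ x ∈ Icc (0 : ℝ) 1, μ (Ico 0 x) = ENNReal.ofReal (f x)

/-- The energy `∫₀¹ (∫₀¹ |x - y|^(τ-1) dω(y))² dx` (the kernel is infinite for `x = y`). -/
def energy (τ : ℝ) (om : Measure ℝ) : ℝ≥0∞ :=
  ∫⁻ x in Icc (0 : ℝ) 1, (∫⁻ y in Icc (0 : ℝ) 1, ENNReal.ofReal |x - y| ^ (τ - 1) ∂om) ^ 2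

/-- The capacity: the supremum of `ω(E)² / energy` over the finite measures with closed support
contained in `E`. -/
def Qap (τ : ℝ) (E : Set ℝ) : ℝ≥0∞ :=
  ⨆ (om : Measure ℝ) (_ : IsFiniteMeasure om ∧ ∃ C, IsClosed C ∧ C ⊆ E ∧ om Cᶜ = 0),
    om E ^ 2 / energy τ om

/-- `s`-polar sets, `0 ≤ s ≤ 1`; for `s = 1` all sets. -/
def Polar (s : ℝ) (E : Set ℝ) : Prop := s = 1 ∨ Qap ((1 - s) / 2) E = 0

/-- `r₀ = (gam - lam) / (lam - 1)`, infinite for `lam = 1`. -/
def r0 (lam gam : ℝ) : EReal := if lam = 1 then ⊤ else (((gam - lam) / (lam - 1) : ℝ) : EReal)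

/-- `r₁ = q - gam`. -/
def r1 (gam q : ℝ) : EReal := ((q - gam : ℝ) : EReal)

/-- `p₀(y) = (y + 1) / (y + gam)`, `p₀(∞) = 1`. -/
def p0 (gam : ℝ) (y : EReal) : ℝ := if y = ⊤ then 1 else (y.toReal + 1) / (y.toReal + gam)

/-- `θ₀`, the minimum of the entropies `h (p₀ y)` for `y` between `α = min {0, r₀, r₁}` and
`β = max {0, r₀, r₁}`. -/
def theta0 (lam gam q : ℝ) : ℝ :=
  sInf ((fun y => Real.binEntropy (p0 gam y)) ''
    Icc (min 0 (min (r0 lam gam) (r1 gam q))) (max 0 (max (r0 lam gam) (r1 gam q))))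

/-- The exceptional parameters. -/
def Exceptional (lam gam q : ℝ) : Prop :=
  1 < lam ∧ q * (lam - 1) = lam * (gam - 1) ∧ (lam - 1) / lam ^ 2 ≤ (gam - 1) / gam ^ 2

/-- **Theorem.** For all trapping parameters, with `d₀ = θ₀ / log 2`: every `d₀`-polar Borel set
`K ⊆ [0, 1]` is a null set of the measure `μ_f` if and only if the parameters are not exceptional. -/
theorem result : ∀ lam gam q : ℝ, 1 ≤ lam → 1 < gam → gam - 1 ≤ q →
    ∀ (f : ℝ → ℝ) (μ : Measure ℝ), IsDeRham lam gam q f → IsMeasureOf f μ →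
      ((∀ K ⊆ Icc (0 : ℝ) 1, MeasurableSet K →
        Polar (theta0 lam gam q / Real.log 2) K → μ K = 0) ↔ ¬ Exceptional lam gam q) := by
  have spos := Pool.Agent.Q265.MD.spos
  have mas := Pool.Agent.Q265.MD.mas spos
  have qap := Pool.Agent.Q151.MD.qap
  have ker := Pool.Agent.Q88.MD.ker
  have dbl := Pool.Agent.Q299.MD.dbl
  have eng := Pool.Agent.Q299.MDE.eng ker dbl
  have cpt := Pool.Agent.Q94.MDCPT.cpt qap eng
  have npl := Pool.Agent.Q299.MDN.npl cpt
  have sup := Pool.Agent.Q223.MD.supr spos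
  have npz := Pool.Agent.Q181.MD.npz spos mas cpt sup
  have inv := Pool.Agent.Q94.MDINV.inv
  have str := Pool.Agent.Q137.MD.STR.str inv
  have htw := Pool.Agent.Q137.MD.HTW.htw inv str
  have tay := Pool.Agent.Q252.MD.tay
  have mom := Pool.Agent.Q252.MD.mom spos inv htw tay
  have bca := Pool.Agent.Q252.MD.bca spos mas mom
  have tlt := Pool.Agent.Q151.MD.tlt inv
  have npr := Pool.Agent.Q192.MD.npr npl bca tlt
  have pol := Pool.Agent.Q177.MD.pol qap
  have cnv := Pool.Agent.Q295.MD.cnv inv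
  have lgm := Pool.Agent.Q295.MD.lgm spos inv cnv
  have mm1 := Pool.Agent.Q223.MD.mm1 spos cnv
  have mm2 := Pool.Agent.Q223.MD.mm2 spos cnv
  have mm4 := Pool.Agent.Q223.MD.mm4 spos cnv mm2
  have pzg := Pool.Agent.Q121.MD.pzg spos mm1 mm2 mm4
  have bad := Pool.Agent.Q186.MD.bad spos mas pol lgm pzg
  have thz := Pool.Agent.Q186.MD.thz
  have thr := Pool.Agent.Q186.MD.thr inv str
  have thb := Pool.Agent.Q186.MD.thb
  have enc := Pool.Agent.Q121.MD.enc
  exact Pool.Agent.Q88.MD.assemble enc thz thr thb npz npr bad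

end Pool.Agent.Results.MP_19f6dc_an.PolarSets
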